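import Mathlib
import Pool.Agent.H422Bohr.Main

/-!
# MP_8fe0b8_an: the Bohr radius for harmonic mappings with bounded dilatation ratio

For every `K > 1` the largest radius for which the Bohr inequality holds in the class `F_K` is
`r_K = (1/4) * sqrt (7/2 - 1/(2K^2) + 5/K)`, as conjectured.
-/

set_option autoImplicit false

open Complex Metric Filter Topology
open scoped ComplexConjugate ENNReal
open Finset (range)

namespace Pool.Agent.Results.MP_8fe0b8_an.BohrRadius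

/-- The Taylor coefficient of order `n` of `f` at the origin. -/
noncomputable def taylor (f : ℂ → ℂ) (n : ℕ) : ℂ := iteratedDeriv n f 0 / (n.factorial : ℂ)

/-- The supremum of `|h|` over the open unit disc. -/
noncomputable def supNorm (h : ℂ → ℂ) : ℝ := ⨆ z : ball (0 : ℂ) 1, ‖h z‖

/-- The harmonic mapping `f = h + conj g` of the unit disc, given by its analytic parts `h` and
`g` (which vanish at the origin and so are determined by `f`), belongs to the class `F_K`: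
`h` is bounded and `|g'| ≤ ((K-1)/(K+1)) |h'|` on the unit disc. -/
structure InFK (K : ℝ) (f h g : ℂ → ℂ) : Prop where
  rep : ∀ z ∈ ball (0 : ℂ) 1, f z = h z + conj (g z)
  h_analytic : DifferentiableOn ℂ h (ball 0 1)
  g_analytic : DifferentiableOn ℂ g (ball 0 1)
  h_zero : h 0 = 0
  g_zero : g 0 = 0
  h_bounded : ∃ B : ℝ, ∀ z ∈ ball (0 : ℂ) 1, ‖h z‖ ≤ B
  dilatation : ∀ z ∈ ball (0 : ℂ) 1, ‖deriv g z‖ ≤ (K - 1) / (K + 1) * ‖deriv h z‖

/-- The majorant sum `∑_{n ≥ 1} (|a_n| + |b_n|) r^n` as an extended nonnegative real number. -/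
noncomputable def bohrSum (h g : ℂ → ℂ) (r : ℝ) : ℝ≥0∞ :=
  ∑' n : ℕ, ENNReal.ofReal ((‖taylor h (n + 1)‖ + ‖taylor g (n + 1)‖) * r ^ (n + 1))

/-- The conjectured radius. -/
noncomputable def rK (K : ℝ) : ℝ := 1 / 4 * Real.sqrt (7 / 2 - 1 / (2 * K ^ 2) + 5 / K)

open Pool.Agent.Helper205.Bohr Pool.Agent.H422Bohr

lemma taylor_eq (f : ℂ → ℂ) : taylor f = coeff f := rfl

/-- coefficients of the derivative -/
lemma ps_deriv {f : ℂ → ℂ} (hf : DifferentiableOn ℂ f (ball 0 1)) :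
    PS (deriv f) (fun n : ℕ => ((n : ℂ) + 1) * taylor f (n + 1)) := by
  have h1 := ps_coeff (hf.deriv isOpen_ball)
  have e : coeff (deriv f) = fun n : ℕ => ((n : ℂ) + 1) * taylor f (n + 1) := by
    funext n
    simp only [coeff, taylor]
    rw [iteratedDeriv_succ', Nat.factorial_succ]
    have h2 : ((n : ℂ) + 1) ≠ 0 := by exact_mod_cast Nat.succ_ne_zero n
    have h3 : ((n.factorial : ℕ) : ℂ) ≠ 0 := by exact_mod_cast Nat.factorial_ne_zero n
    push_cast
    field_simp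
  rw [← e]
  exact h1

lemma k_pos {K : ℝ} (hK : 1 < K) : 0 < (K - 1) / (K + 1) := by
  apply div_pos <;> linarith

/-- the parameter `y = sqrt((1-r^2)/2)` at `r = r_K` -/
noncomputable def yK (K : ℝ) : ℝ := (5 * K - 1) / (8 * K)

lemma rK_sq {K : ℝ} (hK : 1 < K) : rK K ^ 2 + 2 * yK K ^ 2 = 1 := by
  have hK0 : 0 < K := by linarith
  have h1 : 0 ≤ 7 / 2 - 1 / (2 * K ^ 2) + 5 / K := by
    have h2 : 1 / (2 * K ^ 2) ≤ 1 / 2 := by
      apply div_le_div_of_nonneg_left one_pos.le (by norm_num)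
      nlinarith
    have h3 : 0 < 5 / K := by positivity
    linarith
  unfold rK yK
  rw [mul_pow, Real.sq_sqrt h1]
  field_simp
  ring

lemma rK_pos {K : ℝ} (hK : 1 < K) : 0 < rK K := by
  have hK0 : 0 < K := by linarith
  unfold rK
  apply mul_pos (by norm_num)
  apply Real.sqrt_pos.2
  have h2 : 1 / (2 * K ^ 2) ≤ 1 / 2 := by
    apply div_le_div_of_nonneg_left one_pos.le (by norm_num)
    nlinarith
  have h3 : 0 < 5 / K := by positivity
  linarith

lemma yK_bd {K : ℝ} (hK : 1 < K) : 1 / 2 < yK K ∧ yK K < 5 / 8 := by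
  have hK0 : 0 < K := by linarith
  unfold yK
  constructor
  · rw [lt_div_iff₀ (by positivity)]
    linarith
  · rw [div_lt_iff₀ (by positivity)]
    linarith

/-- `k = (4y-2)/(3-4y)` -/
lemma k_eq {K : ℝ} (hK : 1 < K) : (3 - 4 * yK K) * ((K - 1) / (K + 1)) = 4 * yK K - 2 := by
  have hK0 : 0 < K := by linarith
  have : K + 1 ≠ 0 := by linarith
  unfold yK
  field_simp
  ring

/-- partial sums at the radius `r_K` -/
lemma partial_le {K : ℝ} (hK : 1 < K) {f h g : ℂ → ℂ} (hf : InFK K f h g) {c : ℝ}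
    (hc : ∀ z ∈ ball (0 : ℂ) 1, ‖h z‖ ≤ c) {C : ℝ} (hC : c < C) (N : ℕ) :
    ∑ m ∈ range (N + 1), (‖taylor h (m + 1)‖ + ‖taylor g (m + 1)‖) * rK K ^ (m + 1) ≤ C := by
  have hc0 : 0 ≤ c := (norm_nonneg _).trans (hc 0 (by simp))
  have hC0 : 0 < C := hc0.trans_lt hC
  have hk := k_pos hK
  set k := (K - 1) / (K + 1) with hkdef
  obtain ⟨ω, hωd, hωb, hω⟩ := exists_dil hk (hf.h_analytic.deriv isOpen_ball)
    (hf.g_analytic.deriv isOpen_ball) (fun z hz => hf.dilatation z (by simpa using hz))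
  have hps : PS h (taylor h) := ps_coeff hf.h_analytic
  have hpo := ps_coeff hωd
  have hpu := ps_deriv hf.h_analytic
  have hpg := ps_deriv hf.g_analytic
  have h0 : taylor h 0 = 0 := by
    rw [← ps_zero hps]; exact hf.h_zero
  -- product
  have hpv := hpo.mul hpu
  set d := cprod (coeff ω) (fun n : ℕ => ((n : ℂ) + 1) * taylor h (n + 1)) with hd
  have hgd : ∀ m : ℕ, ((m : ℂ) + 1) * taylor g (m + 1) = k * d m := by
    have h1 := (hpv.const_mul (k : ℂ)).congr (G := deriv g) (fun z hz => by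
      rw [hω z hz])
    have h2 := hpg.unique h1
    intro m
    exact congrFun h2 m
  -- scaling by `1/C`
  have hCc : (C : ℂ) ≠ 0 := by exact_mod_cast hC0.ne'
  have hsc : ∀ (x : ℂ), ‖(C : ℂ)⁻¹ * x‖ = ‖x‖ / C := by
    intro x
    rw [norm_mul, norm_inv, Complex.norm_real, Real.norm_of_nonneg hC0.le]
    ring
  have g1 : PS (fun z => (C : ℂ)⁻¹ * h z) (fun n => (C : ℂ)⁻¹ * taylor h n) := hps.const_mul _
  have g2 : ∀ z : ℂ, ‖z‖ < 1 → ‖(C : ℂ)⁻¹ * h z‖ ≤ 1 := by
    intro z hz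
    rw [hsc, div_le_one hC0]
    exact (hc z (by simpa using hz)).trans hC.le
  have g3 : ‖(C : ℂ)⁻¹ * taylor h 1‖ < 1 := by
    rw [hsc, div_lt_one hC0]
    -- intermediate constant
    obtain ⟨c', hc1, hc2⟩ := exists_between hC
    have hc'0 : 0 < c' := hc0.trans_lt hc1
    have hps' : PS (fun z => (c' : ℂ)⁻¹ * h z) (fun n => (c' : ℂ)⁻¹ * taylor h n) :=
      hps.const_mul _
    have hsc' : ∀ (x : ℂ), ‖(c' : ℂ)⁻¹ * x‖ = ‖x‖ / c' := by
      intro x
      rw [norm_mul, norm_inv, Complex.norm_real, Real.norm_of_nonneg hc'0.le]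
      ring
    obtain ⟨φ, hφ, hφb⟩ := exists_phi' hps' (by simp [h0]) (fun z hz => by
      rw [hsc', div_le_one hc'0]
      exact (hc z (by simpa using hz)).trans hc1.le)
    have h1 := hφb 0 (by simp)
    rw [ps_zero hφ, zero_add, hsc', div_le_one hc'0] at h1
    linarith
  have g4 : PS (fun z => (C : ℂ)⁻¹ * deriv h z)
      (fun n : ℕ => ((n : ℂ) + 1) * ((C : ℂ)⁻¹ * taylor h (n + 1))) := by
    have := hpu.const_mul (C : ℂ)⁻¹
    have e : (fun n : ℕ => (C : ℂ)⁻¹ * (((n : ℂ) + 1) * taylor h (n + 1))) =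
        fun n : ℕ => ((n : ℂ) + 1) * ((C : ℂ)⁻¹ * taylor h (n + 1)) := by
      funext n; ring
    rw [← e]
    exact this
  have g5 : PS (fun z => (C : ℂ)⁻¹ * (ω z * deriv h z)) (fun n => (C : ℂ)⁻¹ * d n) :=
    hpv.const_mul _
  obtain ⟨hy0, hy1⟩ := yK_bd hK
  have key := main_norm g1 (by simp [h0]) g2 g3 hpo hωb g4 g5 (fun z hz => by ring)
    (rK_pos hK) (rK_sq hK) hy0.le hy1.le N
  simp only [hsc] at key
  set r := rK K with hr
  set y := yK K with hy
  have h34 : 0 < 3 - 4 * y := by linarith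
  have hkk := k_eq hK
  rw [← hkdef, ← hy] at hkk
  -- rewrite the goal
  have hb : ∀ m : ℕ, ‖taylor g (m + 1)‖ = k * (‖d m‖ / ((m : ℝ) + 1)) := by
    intro m
    have h1 := congrArg norm (hgd m)
    have e : ‖(m : ℂ) + 1‖ = (m : ℝ) + 1 := by
      have : (m : ℂ) + 1 = (((m : ℝ) + 1 : ℝ) : ℂ) := by push_cast; ring
      rw [this, Complex.norm_real, Real.norm_of_nonneg (by positivity)]
    rw [norm_mul, norm_mul, e, Complex.norm_real, Real.norm_of_nonneg hk.le] at h1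
    have h2 : (0:ℝ) < (m : ℝ) + 1 := by positivity
    rw [mul_div_assoc', eq_div_iff h2.ne', ← h1]
    ring
  have e1 : ∑ m ∈ range (N + 1), ‖taylor h (m + 1)‖ * r ^ (m + 1) =
      C * (r * (‖taylor h 1‖ / C + ∑ m ∈ range N, ‖taylor h (m + 2)‖ / C * r ^ (m + 1))) := by
    rw [Finset.sum_range_succ', mul_add, mul_add, Finset.mul_sum, Finset.mul_sum]
    rw [add_comm]
    congr 1
    · field_simp
      ring
    · apply Finset.sum_congr rfl
      intro m _
      rw [pow_succ r (m + 1)]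
      field_simp
  have e2 : ∑ m ∈ range (N + 1), ‖taylor g (m + 1)‖ * r ^ (m + 1) =
      k * (C * (r * (‖d 0‖ / C + ∑ m ∈ range N, ‖d (m + 1)‖ / C / ((m : ℝ) + 2) * r ^ (m + 1)))) := by
    simp only [hb]
    rw [Finset.sum_range_succ', mul_add, mul_add, mul_add, Finset.mul_sum, Finset.mul_sum,
      Finset.mul_sum]
    rw [add_comm]
    congr 1
    · simp
      field_simp
    · apply Finset.sum_congr rfl
      intro m _
      rw [pow_succ r (m + 1)]
      push_cast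
      field_simp
      ring
  have e3 : ∑ m ∈ range (N + 1), (‖taylor h (m + 1)‖ + ‖taylor g (m + 1)‖) * r ^ (m + 1) =
      ∑ m ∈ range (N + 1), ‖taylor h (m + 1)‖ * r ^ (m + 1)
        + ∑ m ∈ range (N + 1), ‖taylor g (m + 1)‖ * r ^ (m + 1) := by
    rw [← Finset.sum_add_distrib]
    apply Finset.sum_congr rfl
    intro m _
    ring
  rw [e3, e1, e2]
  set X := r * (‖taylor h 1‖ / C + ∑ m ∈ range N, ‖taylor h (m + 2)‖ / C * r ^ (m + 1))
  set Z := r * (‖d 0‖ / C + ∑ m ∈ range N, ‖d (m + 1)‖ / C / ((m : ℝ) + 2) * r ^ (m + 1))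
  have h5 : (3 - 4 * y) * (X + k * Z) ≤ (3 - 4 * y) * 1 := by
    have : (3 - 4 * y) * (X + k * Z) = (3 - 4 * y) * X + (4 * y - 2) * Z := by
      rw [← hkk]; ring
    rw [this]
    linarith
  have h6 : X + k * Z ≤ 1 := le_of_mul_le_mul_left h5 h34
  calc C * X + k * (C * Z) = C * (X + k * Z) := by ring
    _ ≤ C * 1 := mul_le_mul_of_nonneg_left h6 hC0.le
    _ = C := mul_one C

/-- the first half -/
lemma upper {K : ℝ} (hK : 1 < K) {f h g : ℂ → ℂ} (hf : InFK K f h g) {r : ℝ} (hr0 : 0 ≤ r)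
    (hr : r ≤ rK K) : bohrSum h g r ≤ ENNReal.ofReal (supNorm h) := by
  obtain ⟨B, hB⟩ := hf.h_bounded
  have hbdd : BddAbove (Set.range fun z : ball (0 : ℂ) 1 => ‖h z‖) :=
    ⟨B, by rintro _ ⟨z, rfl⟩; exact hB z z.2⟩
  have hS : ∀ z ∈ ball (0 : ℂ) 1, ‖h z‖ ≤ supNorm h := by
    intro z hz
    exact le_ciSup hbdd ⟨z, hz⟩
  unfold bohrSum
  apply ENNReal.tsum_le_of_sum_range_le
  intro n
  rw [← ENNReal.ofReal_sum_of_nonneg (fun i _ => by positivity)]
  apply ENNReal.ofReal_le_ofReal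
  have h1 : ∑ i ∈ range n, (‖taylor h (i + 1)‖ + ‖taylor g (i + 1)‖) * r ^ (i + 1) ≤
      ∑ i ∈ range (n + 1), (‖taylor h (i + 1)‖ + ‖taylor g (i + 1)‖) * rK K ^ (i + 1) := by
    rw [Finset.sum_range_succ]
    have h2 : ∑ i ∈ range n, (‖taylor h (i + 1)‖ + ‖taylor g (i + 1)‖) * r ^ (i + 1) ≤
        ∑ i ∈ range n, (‖taylor h (i + 1)‖ + ‖taylor g (i + 1)‖) * rK K ^ (i + 1) := by
      apply Finset.sum_le_sum
      intro i _
      exact mul_le_mul_of_nonneg_left (pow_le_pow_left₀ hr0 hr _) (by positivity)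
    have h3 : 0 ≤ (‖taylor h (n + 1)‖ + ‖taylor g (n + 1)‖) * rK K ^ (n + 1) := by
      have := rK_pos hK
      positivity
    linarith
  refine h1.trans ?_
  apply le_of_forall_gt_imp_ge_of_dense
  intro C hC
  exact partial_le hK hf hS hC n

/-- the extremal functions -/
noncomputable def hh (a : ℝ) (z : ℂ) : ℂ := z * ((z - a) / (1 - a * z))

lemma hh_ps {a : ℝ} (ha0 : 0 ≤ a) (ha1 : a < 1) :
    PS (hh a) (shiftR (fun n => ((1 - a ^ 2 : ℝ) : ℂ) * shiftR (fun n => (a : ℂ) ^ n) n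
      - (if n = 0 then (a : ℂ) else 0))) := by
  have hn : ‖(a : ℂ)‖ ≤ 1 := by
    rw [Complex.norm_real, Real.norm_of_nonneg ha0]; exact ha1.le
  have h1 := ps_geom (a : ℂ) hn
  have h2 := (h1.zmul.const_mul ((1 - a ^ 2 : ℝ) : ℂ)).sub (ps_const (a : ℂ))
  have h3 := h2.zmul
  apply h3.congr
  intro z hz
  have hne : 1 - (a : ℂ) * z ≠ 0 := by
    intro h
    have h4 : (a : ℂ) * z = 1 := (sub_eq_zero.1 h).symm
    have h5 : ‖(a : ℂ) * z‖ = 1 := by rw [h4]; simp
    have := norm_mul_lt hn hz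
    linarith
  simp only [hh]
  congr 1
  rw [eq_div_iff hne]
  have h5 := div_mul_cancel₀ (1 : ℂ) hne
  push_cast
  linear_combination ((1 - (a : ℂ) ^ 2) * z) * h5

lemma hh_bound {a : ℝ} (ha0 : 0 ≤ a) (ha1 : a < 1) {z : ℂ} (hz : ‖z‖ < 1) : ‖hh a z‖ ≤ 1 := by
  have hn : ‖(a : ℂ)‖ ≤ 1 := by
    rw [Complex.norm_real, Real.norm_of_nonneg ha0]; exact ha1.le
  have hne : 1 - (a : ℂ) * z ≠ 0 := by
    intro h
    have h4 : (a : ℂ) * z = 1 := (sub_eq_zero.1 h).symm
    have h5 : ‖(a : ℂ) * z‖ = 1 := by rw [h4]; simp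
    have := norm_mul_lt hn hz
    linarith
  have h1 : ‖(z - a) / (1 - a * z)‖ ≤ 1 := by
    rw [norm_div, div_le_one (norm_pos_iff.2 hne)]
    rw [← sq_le_sq₀ (norm_nonneg _) (norm_nonneg _), ← Complex.normSq_eq_norm_sq,
      ← Complex.normSq_eq_norm_sq]
    have h2 : Complex.normSq z ≤ 1 := by
      rw [Complex.normSq_eq_norm_sq]
      have := norm_nonneg z
      nlinarith
    rw [Complex.normSq_apply] at h2 ⊢
    rw [Complex.normSq_apply]
    simp only [Complex.sub_re, Complex.sub_im, Complex.one_re, Complex.one_im, Complex.mul_re,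
      Complex.mul_im, Complex.ofReal_re, Complex.ofReal_im]
    have h3 : 0 ≤ 1 - a ^ 2 := by nlinarith
    nlinarith [mul_nonneg h3 (sub_nonneg.2 h2)]
  unfold hh
  rw [norm_mul]
  calc ‖z‖ * ‖(z - a) / (1 - a * z)‖ ≤ 1 * 1 :=
        mul_le_mul hz.le h1 (norm_nonneg _) one_pos.le
    _ = 1 := one_mul 1

/-- sum for the extremal function -/
lemma hh_sum {a r : ℝ} (ha0 : 0 ≤ a) (ha1 : a < 1) (hr0 : 0 ≤ r) (hr1 : r < 1) :
    HasSum (fun n : ℕ => ‖taylor (hh a) (n + 1)‖ * r ^ (n + 1))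
      (a * r + r ^ 2 * (1 - a ^ 2) / (1 - a * r)) := by
  have hps := hh_ps ha0 ha1
  have hco : taylor (hh a) = _ := (ps_coeff hps.differentiableOn).unique hps
  have hq : 0 ≤ 1 - a ^ 2 := by nlinarith
  have har : a * r < 1 := by nlinarith
  have har0 : 0 ≤ a * r := by positivity
  have e0 : ‖taylor (hh a) (0 + 1)‖ * r ^ (0 + 1) = a * r := by
    rw [hco]
    simp [shiftR, abs_of_nonneg ha0]
  have e1 : ∀ n : ℕ, ‖taylor (hh a) (n + 1 + 1)‖ * r ^ (n + 1 + 1)
      = r ^ 2 * (1 - a ^ 2) * (a * r) ^ n := by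
    intro n
    rw [hco]
    simp only [shiftR, if_neg (Nat.succ_ne_zero n), sub_zero]
    rw [norm_mul, norm_pow, Complex.norm_real, Complex.norm_real, Real.norm_of_nonneg hq,
      Real.norm_of_nonneg ha0, mul_pow, pow_succ, pow_succ]
    ring
  rw [← hasSum_nat_add_iff' 1]
  simp only [Finset.sum_range_one, e0, e1]
  have h1 := (hasSum_geometric_of_lt_one har0 har).mul_left (r ^ 2 * (1 - a ^ 2))
  have e2 : a * r + r ^ 2 * (1 - a ^ 2) / (1 - a * r) - a * r =
      r ^ 2 * (1 - a ^ 2) * (1 - a * r)⁻¹ := by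
    rw [div_eq_mul_inv]
    ring
  rw [e2]
  exact h1

/-- the second half -/
lemma lower {K : ℝ} (hK : 1 < K) {r : ℝ} (hr : rK K < r) :
    ∃ f h g : ℂ → ℂ, InFK K f h g ∧ ENNReal.ofReal (supNorm h) < bohrSum h g r := by
  have hk := k_pos hK
  set k := (K - 1) / (K + 1) with hkdef
  -- the radius used
  set s := min r (Real.sqrt (1 / 2)) with hs
  have hrK := rK_pos hK
  obtain ⟨hy0, hy1⟩ := yK_bd hK
  have hrK2 := rK_sq hK
  have hrKs : rK K < Real.sqrt (1 / 2) := by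
    apply Real.lt_sqrt_of_sq_lt
    nlinarith
  have hs1 : rK K < s := lt_min hr hrKs
  have hsr : s ≤ r := min_le_left _ _
  have hs0 : 0 < s := hrK.trans hs1
  have hs2 : s ^ 2 ≤ 1 / 2 := by
    have h1 : s ≤ Real.sqrt (1 / 2) := min_le_right _ _
    have h2 := pow_le_pow_left₀ hs0.le h1 2
    rwa [Real.sq_sqrt (by norm_num)] at h2
  have hs3 : s < 1 := by nlinarith
  -- the parameter
  set y := Real.sqrt ((1 - s ^ 2) / 2) with hy
  have hysq : y ^ 2 = (1 - s ^ 2) / 2 := Real.sq_sqrt (by nlinarith)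
  have hyn : 0 ≤ y := Real.sqrt_nonneg _
  have hy2 : s ^ 2 + 2 * y ^ 2 = 1 := by rw [hysq]; ring
  have hyhalf : 1 / 2 ≤ y := by
    apply Real.le_sqrt_of_sq_le
    nlinarith
  have hyK : y < yK K := by
    have h1 : y ^ 2 < yK K ^ 2 := by nlinarith
    exact (sq_lt_sq₀ hyn (by linarith)).1 h1
  set a := (1 - y) / s with ha
  have has : a * s = 1 - y := by rw [ha]; field_simp
  have ha0 : 0 ≤ a := div_nonneg (by linarith) hs0.le
  have ha1 : a < 1 := by
    rw [ha, div_lt_one hs0]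
    -- (1-y) < s : (1-y)^2 < s^2 = 1 - 2y^2
    have h1 : (1 - y) ^ 2 < s ^ 2 := by nlinarith
    exact (sq_lt_sq₀ (by linarith) hs0.le).1 h1
  have hps := hh_ps ha0 ha1
  have hd := hps.differentiableOn
  have hgd : DifferentiableOn ℂ (fun z => (k : ℂ) * hh a z) (ball 0 1) := hd.const_mul _
  refine ⟨fun z => hh a z + conj ((k : ℂ) * hh a z), hh a, fun z => (k : ℂ) * hh a z, ?_, ?_⟩
  · refine ⟨fun z _ => rfl, hd, hgd, by simp [hh], by simp [hh], ⟨1, fun z hz =>
      hh_bound ha0 ha1 (by simpa using hz)⟩, ?_⟩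
    intro z hz
    have hda : DifferentiableAt ℂ (hh a) z := hd.differentiableAt (isOpen_ball.mem_nhds hz)
    have e : deriv (fun z => (k : ℂ) * hh a z) z = (k : ℂ) * deriv (hh a) z :=
      deriv_const_mul _ hda
    rw [e, norm_mul, Complex.norm_real, Real.norm_of_nonneg hk.le]
  · have hsup : supNorm (hh a) ≤ 1 := by
      unfold supNorm
      have : Nonempty (ball (0 : ℂ) 1) := ⟨⟨0, by simp⟩⟩
      exact ciSup_le fun z => hh_bound ha0 ha1 (mem_ball_zero_iff.1 z.2)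
    have hg : ∀ n, ‖taylor (fun z => (k : ℂ) * hh a z) n‖ = k * ‖taylor (hh a) n‖ := by
      intro n
      have h1 := (ps_coeff hgd).unique ((ps_coeff hd).const_mul (k : ℂ))
      rw [taylor_eq, taylor_eq, h1, norm_mul, Complex.norm_real, Real.norm_of_nonneg hk.le]
    have hsum := (hh_sum ha0 ha1 hs0.le hs3).mul_left (1 + k)
    have hval : a * s + s ^ 2 * (1 - a ^ 2) / (1 - a * s) = 3 - 4 * y := by
      have h1 : 0 < 1 - a * s := by rw [has]; linarith
      rw [fM hy2 h1, has]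
      ring_nf
    rw [hval] at hsum
    have hbig : 1 < (1 + k) * (3 - 4 * y) := by
      have h1 := k_eq hK
      rw [← hkdef] at h1
      have h2 : (1 + k) * (3 - 4 * yK K) = 1 := by linarith
      have h3 : (1 + k) * (3 - 4 * yK K) < (1 + k) * (3 - 4 * y) :=
        mul_lt_mul_of_pos_left (by linarith) (by linarith)
      linarith
    calc ENNReal.ofReal (supNorm (hh a)) ≤ ENNReal.ofReal 1 := ENNReal.ofReal_le_ofReal hsup
      _ < ENNReal.ofReal ((1 + k) * (3 - 4 * y)) := by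
          rw [ENNReal.ofReal_lt_ofReal_iff (by linarith)]
          exact hbig
      _ = ∑' n : ℕ, ENNReal.ofReal ((1 + k) * (‖taylor (hh a) (n + 1)‖ * s ^ (n + 1))) := by
          rw [← hsum.tsum_eq]
          apply ENNReal.ofReal_tsum_of_nonneg _ hsum.summable
          intro n
          positivity
      _ ≤ bohrSum (hh a) (fun z => (k : ℂ) * hh a z) r := by
          unfold bohrSum
          apply ENNReal.tsum_le_tsum
          intro n
          apply ENNReal.ofReal_le_ofReal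
          rw [hg]
          have h1 : s ^ (n + 1) ≤ r ^ (n + 1) := pow_le_pow_left₀ hs0.le hsr _
          have h2 : 0 ≤ ‖taylor (hh a) (n + 1)‖ + k * ‖taylor (hh a) (n + 1)‖ := by positivity
          have h3 := mul_le_mul_of_nonneg_left h1 h2
          refine le_trans (le_of_eq ?_) h3
          ring

/-- For every `K > 1`: every harmonic mapping `f = h + conj g` in `F_K` satisfies
`∑_{n ≥ 1} (|a_n| + |b_n|) r^n ≤ ‖h‖_∞` for all `0 ≤ r ≤ r_K`, and for every `r > r_K` some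
`f` in `F_K` violates this inequality at `r`. -/
theorem result (K : ℝ) (hK : 1 < K) :
    (∀ f h g : ℂ → ℂ, InFK K f h g → ∀ r : ℝ, 0 ≤ r → r ≤ rK K →
      bohrSum h g r ≤ ENNReal.ofReal (supNorm h)) ∧
    (∀ r : ℝ, rK K < r → ∃ f h g : ℂ → ℂ, InFK K f h g ∧
      ENNReal.ofReal (supNorm h) < bohrSum h g r) :=
  ⟨fun _ _ _ hf _ hr0 hr => upper hK hf hr0 hr, fun _ hr => lower hK hr⟩

end Pool.Agent.Results.MP_8fe0b8_an.BohrRadius
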